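import Mathlib
import Pool.Agent.X263.FP.STEP

/-! # Heights of the images of points under a matrix over a function field -/

set_option autoImplicit false

namespace Pool.Agent.X263.CC

open Finset Polynomial Pool.Agent.W277.UB Pool.Agent.W277.UB.PlaceData Pool.Agent.X328.FP
open Pool.Agent.X263.FP

noncomputable section

variable {k K : Type*} [Field k] [Field K] [Algebra k K]

open Classical in
/-- the smallest order of a nonzero element of a finite set -/
def mn (Q : PlaceData k K) (v : Q.Pl) (E : Finset K) : ℤ :=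
  if h : (E.filter (· ≠ 0)).Nonempty then (E.filter (· ≠ 0)).inf' h (Q.ord v) else 0

variable {Q : PlaceData k K} {v : Q.Pl}

lemma G_mn {E : Finset K} {x : K} (hx : x ∈ E) : Q.G v (mn Q v E) x := by
  classical
  intro h0
  have hm : x ∈ E.filter (· ≠ 0) := mem_filter.2 ⟨hx, h0⟩
  unfold mn
  rw [dif_pos ⟨x, hm⟩]
  exact Finset.inf'_le (f := Q.ord v) hm

lemma le_mn {E : Finset K} {n : ℤ} (hE : ∃ x ∈ E, x ≠ 0) (h : ∀ x ∈ E, Q.G v n x) :
    n ≤ mn Q v E := by
  classical
  obtain ⟨x, hx, h0⟩ := hE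
  have hm : x ∈ E.filter (· ≠ 0) := mem_filter.2 ⟨hx, h0⟩
  unfold mn
  rw [dif_pos ⟨x, hm⟩]
  refine Finset.le_inf' _ _ fun y hy => ?_
  rw [mem_filter] at hy
  exact h y hy.1 hy.2

lemma mn_zero {E : Finset K} (h : ∀ x ∈ E, x ≠ 0 → Q.ord v x = 0) : mn Q v E = 0 := by
  classical
  unfold mn
  split_ifs with hne
  · obtain ⟨y, hy, he⟩ := Finset.exists_mem_eq_inf' hne (Q.ord v)
    rw [he]
    rw [mem_filter] at hy
    exact h y hy.1 hy.2
  · rfl

variable [DecidableEq K]

/-- the pole of a quotient -/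
lemma pole_div {y z : K} (hz : z ≠ 0) : Q.pole v (y / z) = Q.ord v z - mn Q v {y, z} := by
  classical
  by_cases hy : y = 0
  · subst hy
    have : mn Q v {0, z} = Q.ord v z := by
      apply le_antisymm
      · exact G_mn (by simp) hz
      · apply le_mn ⟨z, by simp, hz⟩
        intro x hx h0
        rw [mem_insert, mem_singleton] at hx
        rcases hx with rfl | rfl
        · exact absurd rfl h0
        · exact le_rfl
    rw [this, zero_div, pole_zero, sub_self]
  · have : mn Q v {y, z} = min (Q.ord v y) (Q.ord v z) := by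
      apply le_antisymm
      · exact le_min (G_mn (by simp) hy) (G_mn (by simp) hz)
      · apply le_mn ⟨z, by simp, hz⟩
        intro x hx h0
        rw [mem_insert, mem_singleton] at hx
        rcases hx with rfl | rfl
        · exact min_le_left _ _
        · exact min_le_right _ _
    rw [this, pole_of_ne (div_ne_zero hy hz), ord_div hy hz]
    rcases le_total (Q.ord v y) (Q.ord v z) with h | h
    · rw [min_eq_left h, max_eq_right (by omega)]
      omega
    · rw [min_eq_right h, max_eq_left (by omega)]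
      omega

/-- the height of a quotient -/
lemma hQ_div (T : Finset Q.Pl) {y z : K} (hz : z ≠ 0)
    (hT : ∀ v, v ∉ T → (y ≠ 0 → Q.ord v y = 0) ∧ (z ≠ 0 → Q.ord v z = 0)) :
    hQ Q (y / z) = -∑ v ∈ T, Q.wt v * mn Q v {y, z} := by
  rw [← hQ_eq Q (y / z) T]
  · have h1 := prod_zero Q T z hz fun v hv => (hT v hv).2 hz
    have h2 : ∑ v ∈ T, Q.wt v * Q.pole v (y / z) =
        ∑ v ∈ T, Q.wt v * Q.ord v z - ∑ v ∈ T, Q.wt v * mn Q v {y, z} := by
      rw [← Finset.sum_sub_distrib]
      refine Finset.sum_congr rfl fun v _ => ?_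
      rw [pole_div hz]
      ring
    rw [h2, h1, zero_sub]
  · intro v hv
    rw [pole_div hz, (hT v hv).2 hz, mn_zero, sub_self]
    intro x hx h0
    rw [mem_insert, mem_singleton] at hx
    rcases hx with rfl | rfl
    · exact (hT v hv).1 h0
    · exact (hT v hv).2 h0

/-- the point at infinity has height zero -/
lemma sum_inf (T : Finset Q.Pl) {y : K} (hy : y ≠ 0) (hT : ∀ v, v ∉ T → Q.ord v y = 0) :
    ∑ v ∈ T, Q.wt v * mn Q v {y, 0} = 0 := by
  rw [← prod_zero Q T y hy hT]
  refine Finset.sum_congr rfl fun v _ => ?_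
  congr 1
  apply le_antisymm
  · exact G_mn (by simp) hy
  · apply le_mn ⟨y, by simp, hy⟩
    intro x hx h0
    rw [mem_insert, mem_singleton] at hx
    rcases hx with rfl | rfl
    · exact le_rfl
    · exact absurd rfl h0

lemma ord_const (c : k) : (algebraMap k K c ≠ 0) → Q.ord v (algebraMap k K c) = 0 := fun h =>
  Q.ord_alg v c (by rintro rfl; exact h (map_zero _))

/-- images of vectors under a matrix: the smallest order -/
lemma mn_image {a b c e G₁ G₂ Y Z : K} (hdet : a * e - b * c ≠ 0) (hG : G₁ ≠ 0 ∨ G₂ ≠ 0)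
    (hY : Y = a * G₁ + b * G₂) (hZ : Z = c * G₁ + e * G₂) :
    mn Q v {Y, Z} + mn Q v {a, b, c, e} ≤ mn Q v {G₁, G₂} + Q.ord v (a * e - b * c) := by
  have h1 : (a * e - b * c) * G₁ = e * Y - b * Z := by rw [hY, hZ]; ring
  have h2 : (a * e - b * c) * G₂ = a * Z - c * Y := by rw [hY, hZ]; ring
  have hgY : Q.G v (mn Q v {Y, Z}) Y := G_mn (by simp)
  have hgZ : Q.G v (mn Q v {Y, Z}) Z := G_mn (by simp)
  have hga : Q.G v (mn Q v {a, b, c, e}) a := G_mn (by simp)
  have hgb : Q.G v (mn Q v {a, b, c, e}) b := G_mn (by simp)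
  have hgc : Q.G v (mn Q v {a, b, c, e}) c := G_mn (by simp)
  have hge : Q.G v (mn Q v {a, b, c, e}) e := G_mn (by simp)
  have h3 : Q.G v (mn Q v {a, b, c, e} + mn Q v {Y, Z}) ((a * e - b * c) * G₁) := by
    rw [h1]
    exact G_sub (G_mul hge hgY) (G_mul hgb hgZ)
  have h4 : Q.G v (mn Q v {a, b, c, e} + mn Q v {Y, Z}) ((a * e - b * c) * G₂) := by
    rw [h2]
    exact G_sub (G_mul hga hgZ) (G_mul hgc hgY)
  have h5 : mn Q v {a, b, c, e} + mn Q v {Y, Z} - Q.ord v (a * e - b * c) ≤ mn Q v {G₁, G₂} := by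
    apply le_mn
    · rcases hG with h | h
      · exact ⟨G₁, by simp, h⟩
      · exact ⟨G₂, by simp, h⟩
    · intro x hx h0
      rw [mem_insert, mem_singleton] at hx
      rcases hx with rfl | rfl
      · have := h3 (mul_ne_zero hdet h0)
        rw [Q.ord_mul v _ _ hdet h0] at this
        omega
      · have := h4 (mul_ne_zero hdet h0)
        rw [Q.ord_mul v _ _ hdet h0] at this
        omega
  omega

/-- two constant points: one image has the smallest possible order -/
lemma mn_two {a b c e : K} (hne : ∃ x ∈ ({a, b, c, e} : Finset K), x ≠ 0) {α β α' β' : k}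
    (hD : α * β' - α' * β ≠ 0) {y z y' z' : K}
    (hy : y = a * algebraMap k K α + b * algebraMap k K β)
    (hz : z = c * algebraMap k K α + e * algebraMap k K β)
    (hy' : y' = a * algebraMap k K α' + b * algebraMap k K β')
    (hz' : z' = c * algebraMap k K α' + e * algebraMap k K β') :
    min (mn Q v {y, z}) (mn Q v {y', z'}) ≤ mn Q v {a, b, c, e} := by
  set n := min (mn Q v {y, z}) (mn Q v {y', z'}) with hn
  have g1 : Q.G v n y := G_mono (G_mn (by simp)) (min_le_left _ _)
  have g2 : Q.G v n z := G_mono (G_mn (by simp)) (min_le_left _ _)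
  have g3 : Q.G v n y' := G_mono (G_mn (by simp)) (min_le_right _ _)
  have g4 : Q.G v n z' := G_mono (G_mn (by simp)) (min_le_right _ _)
  have hDm : algebraMap k K (α * β' - α' * β) ≠ 0 := (_root_.map_ne_zero _).2 hD
  have key : ∀ s t w w' : K, w = s * algebraMap k K α + t * algebraMap k K β →
      w' = s * algebraMap k K α' + t * algebraMap k K β' → Q.G v n w → Q.G v n w' →
      Q.G v n s ∧ Q.G v n t := by
    intro s t w w' h1 h2 h3 h4
    have e1 : s = (β' / (α * β' - α' * β)) • w - (β / (α * β' - α' * β)) • w' := by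
      rw [Algebra.smul_def, Algebra.smul_def, map_div₀, map_div₀, h1, h2]
      field_simp
      rw [map_sub, map_mul, map_mul]
      ring
    have e2 : t = (α / (α * β' - α' * β)) • w' - (α' / (α * β' - α' * β)) • w := by
      rw [Algebra.smul_def, Algebra.smul_def, map_div₀, map_div₀, h1, h2]
      field_simp
      rw [map_sub, map_mul, map_mul]
      ring
    constructor
    · rw [e1]
      exact G_sub (G_smul _ h3) (G_smul _ h4)
    · rw [e2]
      exact G_sub (G_smul _ h4) (G_smul _ h3)
  obtain ⟨ga, gb⟩ := key a b y y' hy hy' g1 g3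
  obtain ⟨gc, ge⟩ := key c e z z' hz hz' g2 g4
  apply le_mn hne
  intro x hx
  simp only [mem_insert, mem_singleton] at hx
  rcases hx with rfl | rfl | rfl | rfl
  · exact ga
  · exact gb
  · exact gc
  · exact ge

/-- the local inequality for the images of several constant points -/
lemma loc_sum {m : ℕ} (hm : 1 ≤ m) {a b c e : K} (hdet : a * e - b * c ≠ 0) (α β : Fin m → k)
    (hαβ : ∀ i, α i ≠ 0 ∨ β i ≠ 0) (hD : ∀ i j, i ≠ j → α i * β j - α j * β i ≠ 0)
    (y z : Fin m → K) (hy : ∀ i, y i = a * algebraMap k K (α i) + b * algebraMap k K (β i))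
    (hz : ∀ i, z i = c * algebraMap k K (α i) + e * algebraMap k K (β i)) :
    ∑ i, mn Q v {y i, z i} ≤ ((m : ℤ) - 2) * mn Q v {a, b, c, e} + Q.ord v (a * e - b * c) := by
  classical
  have hne : ∃ x ∈ ({a, b, c, e} : Finset K), x ≠ 0 := by
    by_contra hcon
    push Not at hcon
    apply hdet
    rw [hcon a (by simp), hcon b (by simp)]
    ring
  set μ := mn Q v {a, b, c, e} with hμ
  have hdet2 : 2 * μ ≤ Q.ord v (a * e - b * c) := by
    have h1 : Q.G v (μ + μ) (a * e - b * c) :=
      G_sub (G_mul (G_mn (by simp)) (G_mn (by simp))) (G_mul (G_mn (by simp)) (G_mn (by simp)))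
    have := h1 hdet
    omega
  have hmap : ∀ i, algebraMap k K (α i) ≠ 0 ∨ algebraMap k K (β i) ≠ 0 := fun i =>
    (hαβ i).imp (_root_.map_ne_zero _).2 (_root_.map_ne_zero _).2
  have hup : ∀ i, mn Q v {y i, z i} ≤ Q.ord v (a * e - b * c) - μ := by
    intro i
    have h1 := mn_image (Q := Q) (v := v) hdet (hmap i) (hy i) (hz i)
    have h2 : mn Q v {algebraMap k K (α i), algebraMap k K (β i)} = 0 := by
      apply mn_zero
      intro x hx h0
      rw [mem_insert, mem_singleton] at hx
      rcases hx with rfl | rfl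
      · exact ord_const _ h0
      · exact ord_const _ h0
    rw [h2] at h1
    omega
  by_cases hex : ∃ i, μ < mn Q v {y i, z i}
  · obtain ⟨i, hi⟩ := hex
    have hoth : ∀ j, j ≠ i → mn Q v {y j, z j} ≤ μ := by
      intro j hj
      have h1 := mn_two (Q := Q) (v := v) hne (hD i j hj.symm) (hy i) (hz i) (hy j) (hz j)
      rcases le_total (mn Q v {y i, z i}) (mn Q v {y j, z j}) with h | h
      · rw [min_eq_left h] at h1
        omega
      · rw [min_eq_right h] at h1
        exact h1
    rw [← Finset.add_sum_erase univ _ (mem_univ i)]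
    have h2 : ∑ j ∈ univ.erase i, mn Q v {y j, z j} ≤ ∑ j ∈ univ.erase i, μ :=
      Finset.sum_le_sum fun j hj => hoth j (Finset.mem_erase.1 hj).1
    rw [Finset.sum_const, Finset.card_erase_of_mem (mem_univ i), card_univ, Fintype.card_fin,
      nsmul_eq_mul, Nat.cast_sub hm] at h2
    have h3 := hup i
    push_cast at h2
    linarith
  · push Not at hex
    have h2 : ∑ j, mn Q v {y j, z j} ≤ ∑ _j : Fin m, μ := Finset.sum_le_sum fun j _ => hex j
    rw [Finset.sum_const, card_univ, Fintype.card_fin, nsmul_eq_mul] at h2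
    linarith

end

end Pool.Agent.X263.CC
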