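import Mathlib
import Pool.Agent.X263.CC.Mob

/-! # Maps `A ∘ g` with a constant map `g`: the orbit of a critical value -/

set_option autoImplicit false

namespace Pool.Agent.X263.CC

open Finset Polynomial Pool.Agent.W277.UB Pool.Agent.W277.UB.PlaceData Pool.Agent.X328.FP
open Pool.Agent.X263.FP

noncomputable section

variable {k K : Type*} [Field k] [Field K] [Algebra k K] [DecidableEq K]

/-- the height of a matrix -/
def HM (Q : PlaceData k K) (a b c e : K) : ℤ := -∑ᶠ v, Q.wt v * mn Q v {a, b, c, e}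

lemma HM_eq (Q : PlaceData k K) {a b c e : K} (T : Finset Q.Pl)
    (hT : ∀ v, v ∉ T → ∀ x ∈ ({a, b, c, e} : Finset K), x ≠ 0 → Q.ord v x = 0) :
    HM Q a b c e = -∑ v ∈ T, Q.wt v * mn Q v {a, b, c, e} := by
  unfold HM
  congr 1
  apply finsum_eq_sum_of_support_subset
  intro v hv
  rw [Function.mem_support] at hv
  rw [Finset.mem_coe]
  by_contra h
  exact hv (by rw [mn_zero (hT v h), mul_zero])

/-- constant maps -/
lemma loc_const {Q : PlaceData k K} {v : Q.Pl} (d : ℕ) (hd : 1 ≤ d) (g₁ g₂ : k[X])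
    (hmax : max g₁.natDegree g₂.natDegree = d) (hco : IsCoprime g₁ g₂) (x : K) :
    (d : ℤ) * Q.pole v x ≤
      -mn Q v {(g₁.map (algebraMap k K)).eval x, (g₂.map (algebraMap k K)).eval x} := by
  have h1 : g₁.natDegree ≤ d := hmax ▸ le_max_left _ _
  have h2 : g₂.natDegree ≤ d := hmax ▸ le_max_right _ _
  have hR : resultant g₂ g₁ d d ≠ 0 := by
    rcases le_total g₁.natDegree g₂.natDegree with h | h
    · rw [max_eq_right h] at hmax
      exact res_ne d g₁ g₂ h1 hmax hd hco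
    · rw [max_eq_left h] at hmax
      have h3 := res_ne d g₂ g₁ h2 hmax hd hco.symm
      rw [resultant_comm]
      refine mul_ne_zero (pow_ne_zero _ (by simp)) h3
  have hR' : resultant (g₂.map (algebraMap k K)) (g₁.map (algebraMap k K)) d d =
      algebraMap k K (resultant g₂ g₁ d d) := resultant_map_map _ _ _ _ _
  have hR0 : resultant (g₂.map (algebraMap k K)) (g₁.map (algebraMap k K)) d d ≠ 0 := by
    rw [hR']
    exact (_root_.map_ne_zero _).2 hR
  have h3 := Pool.Agent.Y784.CH.low (v := v) d hd (g₁.map (algebraMap k K))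
    (g₂.map (algebraMap k K)) (natDegree_map_le.trans h1) (natDegree_map_le.trans h2) 1 one_ne_zero
    (fun i => by rw [ord_one, coeff_map]; exact G_alg _)
    (fun i => by rw [ord_one, coeff_map]; exact G_alg _) hR0 x _
    (G_mn (E := {(g₁.map (algebraMap k K)).eval x, (g₂.map (algebraMap k K)).eval x}) (by simp))
    (G_mn (by simp))
  rw [hR', Q.ord_alg v _ hR, ord_one] at h3
  linarith

lemma eval_ne {g₁ g₂ : K[X]} (hco : IsCoprime g₁ g₂) (x : K) : g₁.eval x ≠ 0 ∨ g₂.eval x ≠ 0 := by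
  by_contra hcon
  push Not at hcon
  obtain ⟨u, w, h⟩ := hco
  have h1 := congrArg (eval x) h
  rw [eval_add, eval_mul, eval_mul, hcon.1, hcon.2, mul_zero, mul_zero, add_zero, eval_one] at h1
  exact zero_ne_one h1

/-- the height of a value of `A ∘ g` -/
lemma hQ_val (Q : PlaceData k K) (d : ℕ) (hd : 1 ≤ d) (g₁ g₂ : k[X])
    (hmax : max g₁.natDegree g₂.natDegree = d) (hco : IsCoprime g₁ g₂) {a b c e : K}
    (hdet : a * e - b * c ≠ 0) (x : K) (p q : K[X])
    (hp : p = C a * g₁.map (algebraMap k K) + C b * g₂.map (algebraMap k K))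
    (hq : q = C c * g₁.map (algebraMap k K) + C e * g₂.map (algebraMap k K))
    (hx : HM Q a b c e < d * hQ Q x) :
    q.eval x ≠ 0 ∧ (d : ℤ) * hQ Q x - HM Q a b c e ≤ hQ Q (vl p q x) := by
  set G₁ := (g₁.map (algebraMap k K)).eval x with hG₁
  set G₂ := (g₂.map (algebraMap k K)).eval x with hG₂
  have hG : G₁ ≠ 0 ∨ G₂ ≠ 0 := eval_ne ((Polynomial.isCoprime_map _).mpr hco) x
  have hY : p.eval x = a * G₁ + b * G₂ := by
    rw [hp, eval_add, eval_mul, eval_mul, eval_C, eval_C]
  have hZ : q.eval x = c * G₁ + e * G₂ := by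
    rw [hq, eval_add, eval_mul, eval_mul, eval_C, eval_C]
  obtain ⟨T, hT⟩ := exists_S Q {x, G₁, G₂, a, b, c, e, p.eval x, q.eval x, a * e - b * c}
  have e1 : HM Q a b c e = -∑ v ∈ T, Q.wt v * mn Q v {a, b, c, e} := by
    apply HM_eq
    intro v hv y hy h0
    refine (hT v hv y ?_).1 h0
    simp only [mem_insert, mem_singleton] at hy ⊢
    tauto
  have e2 : hQ Q x = ∑ v ∈ T, Q.wt v * Q.pole v x :=
    (hQ_eq Q x T fun v hv => (hT v hv x (by simp)).2).symm
  have e3 := prod_zero Q T _ hdet fun v hv => (hT v hv (a * e - b * c) (by simp)).1 hdet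
  have key : ∀ v ∈ T, (d : ℤ) * (Q.wt v * Q.pole v x) ≤
      -(Q.wt v * mn Q v {p.eval x, q.eval x}) - Q.wt v * mn Q v {a, b, c, e} +
        Q.wt v * Q.ord v (a * e - b * c) := by
    intro v _
    have h1 := loc_const (Q := Q) (v := v) d hd g₁ g₂ hmax hco x
    have h2 := mn_image (Q := Q) (v := v) hdet hG hY hZ
    have h3 : (d : ℤ) * Q.pole v x ≤ -mn Q v {p.eval x, q.eval x} - mn Q v {a, b, c, e} +
        Q.ord v (a * e - b * c) := by
      rw [← hG₁, ← hG₂] at h1
      linarith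
    have h4 := mul_le_mul_of_nonneg_left h3 (Q.wt_nonneg v)
    linarith
  have h5 := Finset.sum_le_sum key
  rw [Finset.sum_add_distrib, Finset.sum_sub_distrib, ← Finset.mul_sum, ← e2,
    Finset.sum_neg_distrib, e3] at h5
  have h6 : (d : ℤ) * hQ Q x - HM Q a b c e ≤
      -∑ v ∈ T, Q.wt v * mn Q v {p.eval x, q.eval x} := by
    rw [e1]
    linarith
  by_cases hz : q.eval x = 0
  · exfalso
    have hy : p.eval x ≠ 0 := by
      intro h0
      have h7 : (a * e - b * c) * G₁ = e * p.eval x - b * q.eval x := by rw [hY, hZ]; ring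
      have h8 : (a * e - b * c) * G₂ = a * q.eval x - c * p.eval x := by rw [hY, hZ]; ring
      rw [h0, hz] at h7 h8
      rcases hG with h | h
      · exact mul_ne_zero hdet h (by rw [h7]; ring)
      · exact mul_ne_zero hdet h (by rw [h8]; ring)
    rw [hz, sum_inf T hy fun v hv => (hT v hv (p.eval x) (by simp)).1 hy] at h6
    linarith
  · refine ⟨hz, ?_⟩
    unfold vl
    rw [hQ_div T hz fun v hv => ⟨(hT v hv (p.eval x) (by simp)).1, (hT v hv (q.eval x) (by simp)).1⟩]
    exact h6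

/-- one of several constant points has an image of large height -/
lemma exists_pt (Q : PlaceData k K) {m : ℕ} (hm : 3 ≤ m) {a b c e : K} (hdet : a * e - b * c ≠ 0)
    (hH : 0 < HM Q a b c e) (α β : Fin m → k)
    (hαβ : ∀ i, α i ≠ 0 ∨ β i ≠ 0) (hD : ∀ i j, i ≠ j → α i * β j - α j * β i ≠ 0)
    (y z : Fin m → K) (hy : ∀ i, y i = a * algebraMap k K (α i) + b * algebraMap k K (β i))
    (hz : ∀ i, z i = c * algebraMap k K (α i) + e * algebraMap k K (β i)) :
    ∃ i, z i ≠ 0 ∧ ((m : ℤ) - 2) * HM Q a b c e ≤ m * hQ Q (y i / z i) := by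
  obtain ⟨T, hT⟩ := exists_S Q
    (({a, b, c, e, a * e - b * c} : Finset K) ∪ (univ.image y ∪ univ.image z))
  have hTy : ∀ i v, v ∉ T → y i ≠ 0 → Q.ord v (y i) = 0 := fun i v hv => (hT v hv _ (by simp)).1
  have hTz : ∀ i v, v ∉ T → z i ≠ 0 → Q.ord v (z i) = 0 := fun i v hv => (hT v hv _ (by simp)).1
  have e1 : HM Q a b c e = -∑ v ∈ T, Q.wt v * mn Q v {a, b, c, e} := by
    apply HM_eq
    intro v hv x hx h0
    refine (hT v hv x ?_).1 h0
    simp only [mem_insert, mem_singleton, mem_union] at hx ⊢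
    tauto
  have e3 := prod_zero Q T _ hdet fun v hv => (hT v hv (a * e - b * c) (by simp)).1 hdet
  have key : ∀ v ∈ T, ∑ i, Q.wt v * mn Q v {y i, z i} ≤
      ((m : ℤ) - 2) * (Q.wt v * mn Q v {a, b, c, e}) + Q.wt v * Q.ord v (a * e - b * c) := by
    intro v _
    have h1 := loc_sum (Q := Q) (v := v) (by omega : 1 ≤ m) hdet α β hαβ hD y z hy hz
    have h2 := mul_le_mul_of_nonneg_left h1 (Q.wt_nonneg v)
    rw [← Finset.mul_sum]
    linarith
  have h5 := Finset.sum_le_sum key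
  rw [Finset.sum_add_distrib, ← Finset.mul_sum, e3, add_zero, Finset.sum_comm] at h5
  set h : Fin m → ℤ := fun i => -∑ v ∈ T, Q.wt v * mn Q v {y i, z i} with hh
  have h6 : ((m : ℤ) - 2) * HM Q a b c e ≤ ∑ i, h i := by
    rw [e1, hh, Finset.sum_neg_distrib]
    linarith
  obtain ⟨i, hi⟩ : ∃ i, ((m : ℤ) - 2) * HM Q a b c e ≤ m * h i := by
    by_contra hcon
    push Not at hcon
    have h7 : ∑ i, (m : ℤ) * h i < ∑ _i : Fin m, ((m : ℤ) - 2) * HM Q a b c e :=
      Finset.sum_lt_sum_of_nonempty ⟨⟨0, by omega⟩, mem_univ _⟩ fun i _ => hcon i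
    rw [← Finset.mul_sum, Finset.sum_const, card_univ, Fintype.card_fin, nsmul_eq_mul] at h7
    have hm0 : (0 : ℤ) < m := by exact_mod_cast (by omega : 0 < m)
    have h8 := lt_of_mul_lt_mul_left h7 hm0.le
    omega
  have hm3 : (3 : ℤ) ≤ m := by exact_mod_cast hm
  have hpos : 0 < h i := by
    by_contra hcon
    push Not at hcon
    nlinarith
  have hzi : z i ≠ 0 := by
    intro h0
    have hyi : y i ≠ 0 := by
      intro h1
      have h7 : (a * e - b * c) * algebraMap k K (α i) = e * y i - b * z i := by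
        rw [hy, hz]; ring
      have h8 : (a * e - b * c) * algebraMap k K (β i) = a * z i - c * y i := by
        rw [hy, hz]; ring
      rw [h0, h1] at h7 h8
      rcases hαβ i with h | h
      · exact mul_ne_zero hdet ((_root_.map_ne_zero (algebraMap k K)).2 h) (by rw [h7]; ring)
      · exact mul_ne_zero hdet ((_root_.map_ne_zero (algebraMap k K)).2 h) (by rw [h8]; ring)
    have h9 := sum_inf T hyi (hTy i · · hyi)
    simp only [hh] at hpos
    rw [h0, h9] at hpos
    omega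
  refine ⟨i, hzi, ?_⟩
  rw [hQ_div T hzi fun v hv => ⟨hTy i v hv, hTz i v hv⟩]
  exact hi

/-- the orbit -/
theorem orbit (Q : PlaceData k K) (d m : ℕ) (hd : 2 ≤ d) (hm : 3 ≤ m)
    (hdm : 2 * ((d : ℤ) - 1) < m * ((d : ℤ) - 2)) (g₁ g₂ : k[X])
    (hmax : max g₁.natDegree g₂.natDegree = d) (hco : IsCoprime g₁ g₂) {a b c e : K}
    (hdet : a * e - b * c ≠ 0) (p q : K[X])
    (hp : p = C a * g₁.map (algebraMap k K) + C b * g₂.map (algebraMap k K))
    (hq : q = C c * g₁.map (algebraMap k K) + C e * g₂.map (algebraMap k K))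
    (hH : 0 < HM Q a b c e) (x : K) (hx : ((m : ℤ) - 2) * HM Q a b c e ≤ m * hQ Q x) (n : ℕ) :
    q.eval ((vl p q)^[n] x) ≠ 0 ∧
      (d : ℤ) ^ n * HM Q a b c e ≤ m * (((d : ℤ) - 1) * hQ Q ((vl p q)^[n] x)) := by
  have hdZ : (2 : ℤ) ≤ d := by exact_mod_cast hd
  have hmZ : (3 : ℤ) ≤ m := by exact_mod_cast hm
  have hh0 : ∀ y, 0 ≤ hQ Q y := by
    intro y
    unfold hQ
    exact finsum_nonneg fun v => mul_nonneg (Q.wt_nonneg v) (pole_nonneg v y)
  have main : ∀ n : ℕ, (d : ℤ) ^ n * HM Q a b c e ≤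
      m * (((d : ℤ) - 1) * hQ Q ((vl p q)^[n] x) - HM Q a b c e) := by
    intro n
    induction n with
    | zero =>
      rw [pow_zero, one_mul, Function.iterate_zero, id]
      have h1 := mul_le_mul_of_nonneg_left hx (by linarith : (0 : ℤ) ≤ (d : ℤ) - 1)
      have h2 : 0 ≤ (((d : ℤ) - 1) * ((m : ℤ) - 2) - m - 1) * HM Q a b c e := by
        apply mul_nonneg _ hH.le
        nlinarith
      nlinarith
    | succ n ih =>
      set w := (vl p q)^[n] x with hw
      have h1 : 0 < (d : ℤ) ^ n * HM Q a b c e := by positivity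
      have h2 : HM Q a b c e < ((d : ℤ) - 1) * hQ Q w := by
        by_contra hcon
        push Not at hcon
        have : (m : ℤ) * (((d : ℤ) - 1) * hQ Q w - HM Q a b c e) ≤ 0 :=
          mul_nonpos_of_nonneg_of_nonpos (by linarith) (by linarith)
        linarith
      have h3 : HM Q a b c e < d * hQ Q w := by
        have := hh0 w
        nlinarith
      obtain ⟨h4, h5⟩ := hQ_val Q d (by omega) g₁ g₂ hmax hco hdet w p q hp hq h3
      rw [Function.iterate_succ_apply', ← hw, pow_succ]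
      have h6 := mul_le_mul_of_nonneg_left h5 (by linarith : (0 : ℤ) ≤ (d : ℤ) - 1)
      have h7 : (m : ℤ) * (d * (((d : ℤ) - 1) * hQ Q w - HM Q a b c e)) ≤
          m * (((d : ℤ) - 1) * hQ Q (vl p q w) - HM Q a b c e) := by
        apply mul_le_mul_of_nonneg_left _ (by linarith)
        linarith
      have h8 := mul_le_mul_of_nonneg_left ih (by linarith : (0 : ℤ) ≤ d)
      linarith
  have h1 := main n
  have h2 : 0 < (d : ℤ) ^ n * HM Q a b c e := by positivity
  have h3 : HM Q a b c e < ((d : ℤ) - 1) * hQ Q ((vl p q)^[n] x) := by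
    by_contra hcon
    push Not at hcon
    have : (m : ℤ) * (((d : ℤ) - 1) * hQ Q ((vl p q)^[n] x) - HM Q a b c e) ≤ 0 :=
      mul_nonpos_of_nonneg_of_nonpos (by linarith) (by linarith)
    linarith
  have h4 : HM Q a b c e < d * hQ Q ((vl p q)^[n] x) := by
    have := hh0 ((vl p q)^[n] x)
    nlinarith
  refine ⟨(hQ_val Q d (by omega) g₁ g₂ hmax hco hdet _ p q hp hq h4).1, ?_⟩
  nlinarith

/-- elements of the span of the entries -/
lemma hQ_le_HM (Q : PlaceData k K) {a b c e : K} (h1 : (1 : K) ∈ ({a, b, c, e} : Finset K)) (x : K)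
    (hx : ∀ v n, (∀ y ∈ ({a, b, c, e} : Finset K), Q.G v n y) → Q.G v n x) :
    hQ Q x ≤ HM Q a b c e := by
  obtain ⟨T, hT⟩ := exists_S Q ({a, b, c, e, x} : Finset K)
  have e1 : HM Q a b c e = -∑ v ∈ T, Q.wt v * mn Q v {a, b, c, e} := by
    apply HM_eq
    intro v hv y hy h0
    refine (hT v hv y ?_).1 h0
    simp only [mem_insert, mem_singleton] at hy ⊢
    tauto
  rw [e1, ← hQ_eq Q x T fun v hv => (hT v hv x (by simp)).2, ← Finset.sum_neg_distrib]
  refine Finset.sum_le_sum fun v _ => ?_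
  rw [← mul_neg]
  apply mul_le_mul_of_nonneg_left _ (Q.wt_nonneg v)
  have h2 : mn Q v {a, b, c, e} ≤ 0 := by
    have := G_mn (Q := Q) (v := v) h1 one_ne_zero
    rwa [ord_one] at this
  apply pole_le_of_G (by linarith)
  rw [neg_neg]
  exact hx v _ fun y hy => G_mn hy

lemma hQ_pos (Q : PlaceData k K) (x : K) (hx : ∀ c : k, algebraMap k K c ≠ x) : 0 < hQ Q x := by
  have hx0 : x ≠ 0 := by
    rintro rfl
    exact hx 0 (map_zero _)
  obtain ⟨v, hv⟩ : ∃ v, Q.ord v x < 0 := by
    by_contra hcon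
    push Not at hcon
    obtain ⟨c, hc⟩ := Q.const x hx0 hcon
    exact hx c hc
  obtain ⟨T, hT⟩ := exists_S Q {x}
  rw [← hQ_eq Q x T fun v hv => (hT v hv x (by simp)).2]
  have hvT : v ∈ T := by
    by_contra h
    have := (hT v h x (by simp)).1 hx0
    omega
  have h1 : 0 < Q.wt v * Q.pole v x := by
    apply mul_pos (by have := Q.wt_one v; omega)
    rw [pole_of_ne hx0]
    exact lt_of_lt_of_le (by omega : 0 < -Q.ord v x) (le_max_right _ _)
  exact lt_of_lt_of_le h1 (Finset.single_le_sum (f := fun v => Q.wt v * Q.pole v x)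
    (fun v _ => mul_nonneg (Q.wt_nonneg v) (pole_nonneg v x)) hvT)

lemma HM_pos (Q : PlaceData k K) {a b c e : K} (h1 : (1 : K) ∈ ({a, b, c, e} : Finset K)) (x : K)
    (hx : x ∈ ({a, b, c, e} : Finset K)) (hc : ∀ c : k, algebraMap k K c ≠ x) :
    0 < HM Q a b c e :=
  (hQ_pos Q x hc).trans_le (hQ_le_HM Q h1 x fun _ _ h => h x hx)

lemma hQ_coeff (Q : PlaceData k K) {a b c e : K} (h1 : (1 : K) ∈ ({a, b, c, e} : Finset K))
    (g₁ g₂ : k[X]) (i : ℕ) :
    hQ Q ((C a * g₁.map (algebraMap k K) + C b * g₂.map (algebraMap k K)).coeff i) ≤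
      HM Q a b c e ∧
    hQ Q ((C c * g₁.map (algebraMap k K) + C e * g₂.map (algebraMap k K)).coeff i) ≤
      HM Q a b c e := by
  have key : ∀ s ∈ ({a, b, c, e} : Finset K), ∀ t ∈ ({a, b, c, e} : Finset K),
      hQ Q ((C s * g₁.map (algebraMap k K) + C t * g₂.map (algebraMap k K)).coeff i) ≤
        HM Q a b c e := by
    intro s hs t ht
    apply hQ_le_HM Q h1
    intro v n h
    rw [coeff_add, coeff_C_mul, coeff_C_mul, coeff_map, coeff_map]
    refine G_add ?_ ?_
    · have := G_mul (h s hs) (G_alg (Q := Q) (v := v) (g₁.coeff i))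
      rwa [add_zero] at this
    · have := G_mul (h t ht) (G_alg (Q := Q) (v := v) (g₂.coeff i))
      rwa [add_zero] at this
  exact ⟨key a (by simp) b (by simp), key c (by simp) e (by simp)⟩

end

end Pool.Agent.X263.CC
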