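import Mathlib
import Pool.Agent.X263.CC.Cst
import Pool.Agent.Y706.CH.FinM
import Pool.Agent.Y362.CH.PD
import Pool.Agent.Y968.CH.Deg
import Pool.Agent.Y195.CH.NRM

/-! # Places whose height is comparable with the degrees of field extensions -/

set_option autoImplicit false

namespace Pool.Agent.X263.CC

open Finset Polynomial Pool.Agent.W277.UB Pool.Agent.W277.UB.PlaceData Pool.Agent.X328.FP
open Pool.Agent.X263.FP

universe u v

theorem exists_places : ∃ C : ℕ → ℕ, ∀ (k : Type v) (M : Type u) [Field k] [CharZero k] [Field M]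
    [Algebra k M] (t : M), Transcendental k t →
    FiniteDimensional (IntermediateField.adjoin k {t}) M → ∀ n : ℕ,
    Module.finrank (IntermediateField.adjoin k {t}) M ≤ n →
    ∃ Q : PlaceData.{u} (algebraicClosure k M) M, ∀ x : M,
      hQ Q x ≤ C n * Module.finrank (IntermediateField.adjoin k {x}) M ∧
      (Module.finrank (IntermediateField.adjoin k {x}) M : ℤ) ≤ C n * hQ Q x := by
  classical
  obtain ⟨C₀, hC₀⟩ := Pool.Agent.Y362.CH.t_PD.{u, u}
  refine ⟨fun n => n * (∑ j ∈ range (n + 1), C₀ j) + ∑ j ∈ range (n + 1), C₀ j, ?_⟩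
  intro k M _ _ _ _ t ht hfd n hn
  have cM : CharZero M := charZero_of_injective_algebraMap (algebraMap k M).injective
  obtain ⟨inst, hst, hfin, hle⟩ := Pool.Agent.W277.UD.exists_ratAlg k M t ht
  obtain ⟨hkf, hkfle⟩ := Pool.Agent.Y968.CH.t_KF k M t ht hfd
  have : CharZero (algebraicClosure k M) :=
    charZero_of_injective_algebraMap (algebraMap k (algebraicClosure k M)).injective
  have : CharZero (RatFunc (algebraicClosure k M)) := charZero_of_injective_algebraMap
    (algebraMap (algebraicClosure k M) (RatFunc (algebraicClosure k M))).injective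
  have halg : ∀ x : M, IsAlgebraic (algebraicClosure k M) x →
      ∃ c : (algebraicClosure k M), algebraMap (algebraicClosure k M) M c = x := by
    intro y hy
    have h1 : IsAlgebraic k y := hy.restrictScalars k
    exact ⟨⟨y, h1.isIntegral⟩, rfl⟩
  have htc : ∀ c : algebraicClosure k M, t ≠ algebraMap (algebraicClosure k M) M c := by
    intro c hc
    apply ht
    rw [hc]
    exact mem_algebraicClosure_iff.mp c.2
  obtain ⟨u, -, hugen, huc⟩ := Pool.Agent.W277.UD.exists_gen (k := algebraicClosure k M)
    (F := RatFunc (algebraicClosure k M)) (E := M) Set.univ (IntermediateField.adjoin_univ _ _) t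
    (Set.mem_univ t) htc
  obtain ⟨Q, -, hQ2⟩ := hC₀ (algebraicClosure k M) M halg u hugen huc
  refine ⟨Q, fun x => ?_⟩
  obtain ⟨T, hT⟩ := exists_S Q {x}
  have hTp : ∀ v, v ∉ T → Q.pole v x = 0 := fun v hv => (hT v hv x (by simp)).2
  obtain ⟨h1, h2⟩ := hQ2 x T hTp
  rw [hQ_eq Q x T hTp] at h1 h2
  obtain ⟨t₁, ht₁, hfd₁⟩ := Pool.Agent.Y195.CH.t_FDA (algebraicClosure k M) M
  obtain ⟨h3, h4⟩ := Pool.Agent.Y968.CH.t_HT k (algebraicClosure k M) M M t₁ ht₁ hfd₁ x
  rw [Module.finrank_self, mul_one] at h4
  have hx0 : 0 ≤ hQ Q x := by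
    unfold hQ
    exact finsum_nonneg fun v => mul_nonneg (Q.wt_nonneg v) (pole_nonneg v x)
  have hCle : C₀ (Module.finrank (RatFunc (algebraicClosure k M)) M) ≤
      ∑ j ∈ range (n + 1), C₀ j :=
    Finset.single_le_sum (f := C₀) (fun _ _ => Nat.zero_le _)
      (Finset.mem_range.2 (by have := hle.trans hn; omega))
  have h3' : (Module.finrank (IntermediateField.adjoin (algebraicClosure k M) {x}) M : ℤ) ≤
      Module.finrank (IntermediateField.adjoin k {x}) M := by exact_mod_cast h3
  have h4' : (Module.finrank (IntermediateField.adjoin k {x}) M : ℤ) ≤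
      n * Module.finrank (IntermediateField.adjoin (algebraicClosure k M) {x}) M := by
    refine le_trans (by exact_mod_cast h4 : (Module.finrank (IntermediateField.adjoin k {x}) M : ℤ)
      ≤ ((Module.finrank k (algebraicClosure k M) *
        Module.finrank (IntermediateField.adjoin (algebraicClosure k M) {x}) M : ℕ) : ℤ)) ?_
    push_cast
    apply mul_le_mul_of_nonneg_right _ (by positivity)
    exact_mod_cast hkfle.trans hn
  have hCle' : (C₀ (Module.finrank (RatFunc (algebraicClosure k M)) M) : ℤ) ≤
      ((∑ j ∈ range (n + 1), C₀ j : ℕ) : ℤ) := by exact_mod_cast hCle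
  set S : ℤ := ((∑ j ∈ range (n + 1), C₀ j : ℕ) : ℤ) with hS
  have hS0 : 0 ≤ S := by positivity
  have hfk : (0 : ℤ) ≤ Module.finrank (IntermediateField.adjoin k {x}) M := by positivity
  have hfk' : (0 : ℤ) ≤ Module.finrank (IntermediateField.adjoin (algebraicClosure k M) {x}) M := by
    positivity
  have hcast : ((n * (∑ j ∈ range (n + 1), C₀ j) + ∑ j ∈ range (n + 1), C₀ j : ℕ) : ℤ) =
      n * S + S := by
    rw [hS]
    push_cast
    ring
  rw [hcast]
  have hn0 : (0 : ℤ) ≤ n := by positivity
  constructor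
  · calc hQ Q x ≤ C₀ (Module.finrank (RatFunc (algebraicClosure k M)) M) *
          Module.finrank (IntermediateField.adjoin (algebraicClosure k M) {x}) M := h1
      _ ≤ S * Module.finrank (IntermediateField.adjoin k {x}) M :=
          mul_le_mul hCle' h3' hfk' hS0
      _ ≤ (n * S + S) * Module.finrank (IntermediateField.adjoin k {x}) M := by
          apply mul_le_mul_of_nonneg_right _ hfk
          nlinarith
  · calc (Module.finrank (IntermediateField.adjoin k {x}) M : ℤ)
        ≤ n * Module.finrank (IntermediateField.adjoin (algebraicClosure k M) {x}) M := h4'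
      _ ≤ n * (S * hQ Q x) := by
          apply mul_le_mul_of_nonneg_left _ hn0
          exact h2.trans (mul_le_mul_of_nonneg_right hCle' hx0)
      _ ≤ (n * S + S) * hQ Q x := by nlinarith [mul_nonneg hS0 hx0]

end Pool.Agent.X263.CC
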