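import Mathlib
import Pool.Agent.X263.CC.Pla

/-! # Maps with constant critical points: a critical point of large canonical height -/

set_option autoImplicit false

namespace Pool.Agent.X263.CC

open Finset Polynomial Pool.Agent.W277.UB Pool.Agent.W277.UB.PlaceData Pool.Agent.X328.FP
open Pool.Agent.X263.FP Pool.Agent.W277.UH Pool.Agent.Y706.CH

universe u v

/-- the coordinates of a value -/
noncomputable def V {K : Type*} [Field K] (g : K[X]) (d : ℕ) : Option K → K
  | some x => g.eval x
  | none => g.coeff d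

lemma ratP1_V {K : Type*} [Field K] (p q : K[X]) (d : ℕ) (ξ : Option K) (h : V q d ξ ≠ 0) :
    ratP1 p q d ξ = some (V p d ξ / V q d ξ) := by
  classical
  cases ξ with
  | none =>
    have h' : q.coeff d ≠ 0 := h
    simp only [ratP1, V]
    rw [if_neg h']
  | some x =>
    have h' : q.eval x ≠ 0 := h
    simp only [ratP1, V]
    rw [if_neg h']

lemma ratP1_V0 {K : Type*} [Field K] (p q : K[X]) (d : ℕ) (ξ : Option K) (h : V q d ξ = 0) :
    ratP1 p q d ξ = none := by
  classical
  cases ξ with
  | none =>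
    have h' : q.coeff d = 0 := h
    simp only [ratP1]
    rw [if_pos h']
  | some x =>
    have h' : q.eval x = 0 := h
    simp only [ratP1]
    rw [if_pos h']

lemma V_lin {K : Type*} [Field K] (a b : K) (p q : K[X]) (d : ℕ) (ξ : Option K) :
    V (C a * p + C b * q) d ξ = a * V p d ξ + b * V q d ξ := by
  cases ξ with
  | none => simp [V]
  | some x => simp [V]

lemma V_ne {K : Type*} [Field K] {p q : K[X]} (hco : IsCoprime p q) (d : ℕ)
    (hmax : max p.natDegree q.natDegree = d) (hd : 1 ≤ d) (ξ : Option K) :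
    V p d ξ ≠ 0 ∨ V q d ξ ≠ 0 := by
  classical
  cases ξ with
  | some x => exact eval_ne hco x
  | none =>
    rcases le_total p.natDegree q.natDegree with h | h
    · right
      rw [max_eq_right h] at hmax
      show q.coeff d ≠ 0
      rw [← hmax, coeff_natDegree]
      apply leadingCoeff_ne_zero.2
      rintro rfl
      rw [natDegree_zero] at hmax
      omega
    · left
      rw [max_eq_left h] at hmax
      show p.coeff d ≠ 0
      rw [← hmax, coeff_natDegree]
      apply leadingCoeff_ne_zero.2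
      rintro rfl
      rw [natDegree_zero] at hmax
      omega

lemma iter_some {K : Type*} [Field K] (p q : K[X]) (d : ℕ) (ξ : Option K) (x : K)
    (h0 : ratP1 p q d ξ = some x) (h : ∀ n : ℕ, q.eval ((vl p q)^[n] x) ≠ 0) (n : ℕ) :
    (ratP1 p q d)^[n + 1] ξ = some ((vl p q)^[n] x) := by
  induction n with
  | zero => rw [zero_add, Function.iterate_one, h0]; rfl
  | succ n ih =>
    rw [Function.iterate_succ_apply', ih, Function.iterate_succ_apply', ratP1_some _ _ _ _ (h n)]
    rfl

/-- The heights. -/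
theorem main (n d m : ℕ) (hd : 2 ≤ d) (hm : 3 ≤ m) (hdm : 2 * ((d : ℤ) - 1) < m * ((d : ℤ) - 2)) :
    ∃ B : ℕ, ∀ (k : Type v) (M : Type u) [Field k] [CharZero k] [Field M] [Algebra k M] (t : M),
    Transcendental k t → FiniteDimensional (IntermediateField.adjoin k {t}) M →
    Module.finrank (IntermediateField.adjoin k {t}) M ≤ n →
    ∀ g₁ g₂ : M[X], (∀ i, IsAlgebraic k (g₁.coeff i)) → (∀ i, IsAlgebraic k (g₂.coeff i)) →
    IsCoprime g₁ g₂ → max g₁.natDegree g₂.natDegree = d →
    ∀ a b c e : M, a * e - b * c ≠ 0 → (a = 1 ∨ b = 1 ∨ c = 1 ∨ e = 1) →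
    (Transcendental k a ∨ Transcendental k b ∨ Transcendental k c ∨ Transcendental k e) →
    ∀ ξ : Fin m → Option M, (∀ i, IsCr g₁ g₂ d (ξ i)) →
    Function.Injective (fun i => ratP1 g₁ g₂ d (ξ i)) →
    ∀ p q : M[X], p = C a * g₁ + C b * g₂ → q = C c * g₁ + C e * g₂ →
    ∃ i, ∀ j, (hgt k (some (p.coeff j)) : ENNReal) ≤ B * Filter.limsup (fun s : ℕ =>
        (hgt k ((ratP1 p q d)^[s] (ξ i)) : ENNReal) / (d : ENNReal) ^ s) Filter.atTop ∧
      (hgt k (some (q.coeff j)) : ENNReal) ≤ B * Filter.limsup (fun s : ℕ =>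
        (hgt k ((ratP1 p q d)^[s] (ξ i)) : ENNReal) / (d : ENNReal) ^ s) Filter.atTop := by
  classical
  obtain ⟨C₀, hC₀⟩ := exists_places.{u, v}
  refine ⟨C₀ n * C₀ n * (m * (d - 1)) * d, ?_⟩
  intro k M _ _ _ _ t ht hfd hn g₁ g₂ hg₁ hg₂ hco hmax a b c e hdet h1 htr ξ hξ hinj p q hp hq
  have cM : CharZero M := charZero_of_injective_algebraMap (algebraMap k M).injective
  obtain ⟨Q, hQh⟩ := hC₀ k M t ht hfd n hn
  -- the constant map
  obtain ⟨γ₁, rfl⟩ : ∃ γ : (algebraicClosure k M)[X], γ.map (algebraMap (algebraicClosure k M) M) = g₁ := by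
    rw [← mem_lifts, lifts_iff_coeff_lifts]
    exact fun i => ⟨⟨g₁.coeff i, (hg₁ i).isIntegral⟩, rfl⟩
  obtain ⟨γ₂, rfl⟩ : ∃ γ : (algebraicClosure k M)[X], γ.map (algebraMap (algebraicClosure k M) M) = g₂ := by
    rw [← mem_lifts, lifts_iff_coeff_lifts]
    exact fun i => ⟨⟨g₂.coeff i, (hg₂ i).isIntegral⟩, rfl⟩
  have hinjk : Function.Injective (algebraMap (algebraicClosure k M) M) := (algebraMap (algebraicClosure k M) M).injective
  have hcoγ : IsCoprime γ₁ γ₂ := (Polynomial.isCoprime_map _).mp hco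
  have hmaxγ : max γ₁.natDegree γ₂.natDegree = d := by
    rw [natDegree_map_eq_of_injective hinjk, natDegree_map_eq_of_injective hinjk] at hmax
    exact hmax
  -- the critical points are constant
  have hconst : ∀ i, ∃ α β : (algebraicClosure k M), algebraMap (algebraicClosure k M) M α = V (γ₁.map (algebraMap (algebraicClosure k M) M)) d (ξ i) ∧
      algebraMap (algebraicClosure k M) M β = V (γ₂.map (algebraMap (algebraicClosure k M) M)) d (ξ i) := by
    intro i
    have hi := hξ i
    rcases hξi : ξ i with _ | x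
    · exact ⟨γ₁.coeff d, γ₂.coeff d, by simp [V], by simp [V]⟩
    · rw [hξi] at hi
      have hW : (derivative γ₁ * γ₂ - γ₁ * derivative γ₂) ≠ 0 :=
        wr_ne γ₁ γ₂ hcoγ d (by omega) hmaxγ
      have h2 : ((derivative γ₁ * γ₂ - γ₁ * derivative γ₂).map (algebraMap (algebraicClosure k M) M)).eval x = 0 := by
        rw [Polynomial.map_sub, Polynomial.map_mul, Polynomial.map_mul, ← derivative_map,
          ← derivative_map]
        exact hi
      have h3 : IsAlgebraic (algebraicClosure k M) x := ⟨_, hW, by rw [aeval_def, ← eval_map]; exact h2⟩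
      have h4 : IsAlgebraic k x := h3.restrictScalars k
      obtain ⟨c', hc'⟩ : ∃ c' : (algebraicClosure k M), algebraMap (algebraicClosure k M) M c' = x := ⟨⟨x, h4.isIntegral⟩, rfl⟩
      refine ⟨γ₁.eval c', γ₂.eval c', ?_, ?_⟩
      · show _ = (γ₁.map (algebraMap (algebraicClosure k M) M)).eval x
        rw [← hc', eval_map, eval₂_at_apply]
      · show _ = (γ₂.map (algebraMap (algebraicClosure k M) M)).eval x
        rw [← hc', eval_map, eval₂_at_apply]
  choose α β hα hβ using hconst
  have hαβ : ∀ i, α i ≠ 0 ∨ β i ≠ 0 := by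
    intro i
    rcases V_ne hco d hmax (by omega) (ξ i) with h | h
    · left
      rintro h0
      rw [← hα i, h0, map_zero] at h
      exact h rfl
    · right
      rintro h0
      rw [← hβ i, h0, map_zero] at h
      exact h rfl
  have hD : ∀ i j, i ≠ j → α i * β j - α j * β i ≠ 0 := by
    intro i j hij h0
    apply hij
    apply hinj
    show ratP1 _ _ d (ξ i) = ratP1 _ _ d (ξ j)
    have h0' : α i * β j = α j * β i := sub_eq_zero.1 h0
    by_cases hi : β i = 0
    · have hαi : α i ≠ 0 := (hαβ i).resolve_right (by simpa using hi)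
      have hj : β j = 0 := by
        rw [hi, mul_zero] at h0'
        exact (mul_eq_zero.1 h0').resolve_left hαi
      rw [ratP1_V0 _ _ d _ (by rw [← hβ i, hi, map_zero]),
        ratP1_V0 _ _ d _ (by rw [← hβ j, hj, map_zero])]
    · have hj : β j ≠ 0 := by
        intro hj
        rw [hj, mul_zero] at h0'
        rcases mul_eq_zero.1 h0'.symm with h | h
        · rcases hαβ j with h' | h'
          · exact h' h
          · exact h' hj
        · exact hi h
      have hi' : algebraMap (algebraicClosure k M) M (β i) ≠ 0 := (_root_.map_ne_zero _).2 hi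
      have hj' : algebraMap (algebraicClosure k M) M (β j) ≠ 0 := (_root_.map_ne_zero _).2 hj
      rw [ratP1_V _ _ d _ (by rw [← hβ i]; exact hi'), ratP1_V _ _ d _ (by rw [← hβ j]; exact hj'),
        ← hα i, ← hβ i, ← hα j, ← hβ j]
      congr 1
      rw [div_eq_div_iff hi' hj', ← map_mul, ← map_mul, h0']
  -- the matrix
  have h1' : (1 : M) ∈ ({a, b, c, e} : Finset M) := by
    simp only [mem_insert, mem_singleton]
    rcases h1 with h | h | h | h
    · exact Or.inl h.symm
    · exact Or.inr (Or.inl h.symm)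
    · exact Or.inr (Or.inr (Or.inl h.symm))
    · exact Or.inr (Or.inr (Or.inr h.symm))
  have hHM : 0 < HM Q a b c e := by
    have key : ∀ x ∈ ({a, b, c, e} : Finset M), Transcendental k x → 0 < HM Q a b c e := by
      intro x hx htx
      apply HM_pos Q h1' x hx
      intro c' hc'
      apply htx
      rw [← hc']
      exact mem_algebraicClosure_iff.mp c'.2
    rcases htr with h | h | h | h
    · exact key a (by simp) h
    · exact key b (by simp) h
    · exact key c (by simp) h
    · exact key e (by simp) h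
  obtain ⟨i, hzi, hhi⟩ := exists_pt Q hm hdet hHM α β hαβ hD
    (fun i => a * algebraMap (algebraicClosure k M) M (α i) + b * algebraMap (algebraicClosure k M) M (β i))
    (fun i => c * algebraMap (algebraicClosure k M) M (α i) + e * algebraMap (algebraicClosure k M) M (β i)) (fun _ => rfl) (fun _ => rfl)
  set x₁ : M := (a * algebraMap (algebraicClosure k M) M (α i) + b * algebraMap (algebraicClosure k M) M (β i)) /
    (c * algebraMap (algebraicClosure k M) M (α i) + e * algebraMap (algebraicClosure k M) M (β i)) with hx₁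
  have horb := orbit Q d m hd hm hdm γ₁ γ₂ hmaxγ hcoγ hdet p q hp hq hHM x₁ hhi
  have hVq : V q d (ξ i) = c * algebraMap (algebraicClosure k M) M (α i) + e * algebraMap (algebraicClosure k M) M (β i) := by
    rw [hq, V_lin, hα, hβ]
  have hVp : V p d (ξ i) = a * algebraMap (algebraicClosure k M) M (α i) + b * algebraMap (algebraicClosure k M) M (β i) := by
    rw [hp, V_lin, hα, hβ]
  have hfirst : ratP1 p q d (ξ i) = some x₁ := by
    rw [ratP1_V p q d (ξ i) (by rw [hVq]; exact hzi), hVp, hVq]
  have hit : ∀ s : ℕ, (ratP1 p q d)^[s + 1] (ξ i) = some ((vl p q)^[s] x₁) :=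
    iter_some p q d (ξ i) x₁ hfirst fun s => (horb s).1
  have hC0 : (0 : ℤ) ≤ C₀ n := by positivity
  have hd1 : ((d - 1 : ℕ) : ℤ) = (d : ℤ) - 1 := by
    rw [Nat.cast_sub (by omega)]
    simp
  -- the comparison
  have hcmp : ∀ y : M, hQ Q y ≤ HM Q a b c e → ∀ s : ℕ,
      hgt k (some y) * d ^ (s + 1) ≤ (C₀ n * C₀ n * (m * (d - 1)) * d) *
        hgt k ((ratP1 p q d)^[s + 1] (ξ i)) := by
    intro y hy s
    rw [hit s]
    have e1 := (hQh y).2
    have e2 := (hQh ((vl p q)^[s] x₁)).1
    have e3 := (horb s).2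
    have hhy : hgt k (some y) = Module.finrank (IntermediateField.adjoin k {y}) M := rfl
    have hhx : hgt k (some ((vl p q)^[s] x₁)) =
        Module.finrank (IntermediateField.adjoin k {(vl p q)^[s] x₁}) M := rfl
    rw [hhy, hhx]
    set F : ℤ := (Module.finrank (IntermediateField.adjoin k {y}) M : ℤ) with hF
    set G : ℤ := (Module.finrank (IntermediateField.adjoin k {(vl p q)^[s] x₁}) M : ℤ) with hG
    have hG0 : 0 ≤ G := by positivity
    have e4 : F * (d : ℤ) ^ s ≤ C₀ n * (m * (((d : ℤ) - 1) * (C₀ n * G))) := by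
      calc F * (d : ℤ) ^ s ≤ (C₀ n * HM Q a b c e) * (d : ℤ) ^ s := by
            apply mul_le_mul_of_nonneg_right _ (by positivity)
            exact e1.trans (mul_le_mul_of_nonneg_left hy hC0)
        _ = C₀ n * ((d : ℤ) ^ s * HM Q a b c e) := by ring
        _ ≤ C₀ n * (m * (((d : ℤ) - 1) * hQ Q ((vl p q)^[s] x₁))) :=
            mul_le_mul_of_nonneg_left e3 hC0
        _ ≤ C₀ n * (m * (((d : ℤ) - 1) * (C₀ n * G))) := by
            apply mul_le_mul_of_nonneg_left _ hC0
            apply mul_le_mul_of_nonneg_left _ (by positivity)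
            apply mul_le_mul_of_nonneg_left e2
            have : (2 : ℤ) ≤ d := by exact_mod_cast hd
            linarith
    have e5 := mul_le_mul_of_nonneg_right e4 (by positivity : (0 : ℤ) ≤ d)
    zify
    rw [hd1, ← hF, ← hG]
    calc F * (d : ℤ) ^ (s + 1) = F * (d : ℤ) ^ s * d := by ring
      _ ≤ C₀ n * (m * (((d : ℤ) - 1) * (C₀ n * G))) * d := e5
      _ = _ := by ring
  refine ⟨i, ?_⟩
  have hlim : ∀ y : M, hQ Q y ≤ HM Q a b c e → (hgt k (some y) : ENNReal) ≤
      ((C₀ n * C₀ n * (m * (d - 1)) * d : ℕ) : ENNReal) * Filter.limsup (fun s : ℕ =>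
        (hgt k ((ratP1 p q d)^[s] (ξ i)) : ENNReal) / (d : ENNReal) ^ s) Filter.atTop := by
    intro y hy
    set B : ℕ := C₀ n * C₀ n * (m * (d - 1)) * d with hB
    have hdn : (d : ENNReal) ≠ 0 := by
      simp only [ne_eq, Nat.cast_eq_zero]
      omega
    have hdt : (d : ENNReal) ≠ ⊤ := ENNReal.natCast_ne_top d
    have hstep : ∀ s : ℕ, 1 ≤ s → (hgt k (some y) : ENNReal) ≤
        (B : ENNReal) * ((hgt k ((ratP1 p q d)^[s] (ξ i)) : ENNReal) / (d : ENNReal) ^ s) := by
      intro s hs
      obtain ⟨r, rfl⟩ : ∃ r, s = r + 1 := ⟨s - 1, by omega⟩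
      rw [← mul_div_assoc, ENNReal.le_div_iff_mul_le (Or.inl (pow_ne_zero _ hdn))
        (Or.inl (ENNReal.pow_ne_top hdt))]
      exact_mod_cast hcmp y hy r
    by_cases hB0 : B = 0
    · have h2 := hstep 1 le_rfl
      rw [hB0] at h2 ⊢
      simpa using h2
    · have h2 : (hgt k (some y) : ENNReal) / B ≤ Filter.limsup (fun s : ℕ =>
          (hgt k ((ratP1 p q d)^[s] (ξ i)) : ENNReal) / (d : ENNReal) ^ s) Filter.atTop := by
        apply Filter.le_limsup_of_frequently_le'
        apply Filter.Eventually.frequently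
        filter_upwards [Filter.eventually_ge_atTop 1] with s hs
        rw [ENNReal.div_le_iff_le_mul (Or.inl (by exact_mod_cast hB0))
          (Or.inl (ENNReal.natCast_ne_top B)), mul_comm]
        exact hstep s hs
      rwa [ENNReal.div_le_iff_le_mul (Or.inl (by exact_mod_cast hB0))
        (Or.inl (ENNReal.natCast_ne_top B)), mul_comm] at h2
  intro j
  have hc := hQ_coeff Q h1' γ₁ γ₂ j
  rw [← hp, ← hq] at hc
  exact ⟨hlim _ hc.1, hlim _ hc.2⟩

end Pool.Agent.X263.CC
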